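import Pool.Agent.BEH.Stmts

set_option autoImplicit false

namespace Pool.Agent.BEH.H80

open Set Filter Topology MeasureTheory
open scoped InnerProductSpace ENNReal
open Pool.Agent.BE01 Pool.Agent.BEL

noncomputable section

/-- The gradient of the square. -/
theorem gradient_sq {d : ℕ} (η : En d → ℝ) (hη : Differentiable ℝ η) (y : En d) :
    gradient (fun z => η z ^ 2) y = (2 * η y) • gradient η y := by
  unfold gradient
  have h : fderiv ℝ (fun z => η z ^ 2) y = (2 * η y) • fderiv ℝ η y := by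
    have h1 := ((hη y).hasFDerivAt.pow 2).fderiv
    rw [h1]
    ext v
    simp
  rw [h]
  simp

/-- The gradient of a smooth function is continuous. -/
theorem gradient_cont {d : ℕ} (η : En d → ℝ) (hη : ContDiff ℝ ((⊤ : ℕ∞) : WithTop ℕ∞) η) :
    Continuous (gradient η) := by
  have h : Continuous (fderiv ℝ η) := hη.continuous_fderiv (by simp)
  exact (InnerProductSpace.toDual ℝ (En d)).symm.continuous.comp h

/-- `ι (e i) = (om i)⁻¹ b i`. -/
theorem iota_e {d : ℕ} {Ω : Set (En d)} {ι : VV Ω →L[ℝ] Lp ℝ 2 (mu Ω)}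
    {b : HilbertBasis ℕ ℝ (Lp ℝ 2 (mu Ω))} {e : HilbertBasis ℕ ℝ (VV Ω)} {om : ℕ → ℝ}
    (hs : Spec Ω ι b e om) (i : ℕ) : ι (e i) = (om i)⁻¹ • b i := by
  apply b.repr.injective
  ext k
  rw [b.repr_apply_apply, b.repr_apply_apply, hs.rel, inner_smul_right]
  have h1 := (orthonormal_iff_ite.1 e.orthonormal) k i
  have h2 := (orthonormal_iff_ite.1 b.orthonormal) k i
  rw [h1, h2]
  by_cases hk : k = i
  · subst hk
    simp
  · simp [hk]

/-- ENI: the energy identity. -/
theorem eni (hPRR : PrrStmt) : EniStmt := by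
  intro d Ω ι b e om hok η hη hb N c G hG
  obtain ⟨hdom, hemb, hgrf, hspec⟩ := hok
  have hιG : ι G = ∑ i : Fin N, c i • b i := by
    rw [hG, map_sum]
    refine Finset.sum_congr rfl ?_
    intro i _
    rw [map_smul, iota_e hspec, smul_smul, mul_assoc, mul_inv_cancel₀ (hspec.pos i).ne', mul_one]
  refine ⟨hιG, ?_⟩
  obtain ⟨C, hC⟩ := hb
  have hdiff : Differentiable ℝ η := hη.differentiable (by simp)
  have hη2 : ContDiff ℝ ((⊤ : ℕ∞) : WithTop ℕ∞) (fun y => η y ^ 2) := hη.pow 2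
  have hb2 : ∃ C' : ℝ, ∀ y, |(fun y => η y ^ 2) y| ≤ C' ∧
      ‖gradient (fun y => η y ^ 2) y‖ ≤ C' := by
    refine ⟨2 * C ^ 2, ?_⟩
    intro y
    obtain ⟨h1, h2⟩ := hC y
    have hC0 : 0 ≤ C := (abs_nonneg _).trans h1
    constructor
    · show |η y ^ 2| ≤ _
      rw [abs_pow]
      have := pow_le_pow_left₀ (abs_nonneg (η y)) h1 2
      nlinarith [sq_nonneg C]
    · rw [gradient_sq η hdiff, norm_smul, Real.norm_eq_abs, abs_mul, abs_two]
      have := mul_le_mul h1 h2 (norm_nonneg _) hC0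
      nlinarith
  obtain ⟨M, hM⟩ := hPRR d Ω Ω ι ι (fun y => η y ^ 2) hdom hdom (Subset.refl _) hemb hemb hη2 hb2
    inter_subset_right
  obtain ⟨hM1, hM2⟩ := hM G
  -- the inner product of `G` and `M G`
  have hin : ⟪G, M G⟫_ℝ = ∑ i : Fin N, c i * om i ^ 2 * ⟪b i, ι (M G)⟫_ℝ := by
    conv_lhs => rw [show ⟪G, M G⟫_ℝ = ⟪∑ i : Fin N, (c i * om i) • e i, M G⟫_ℝ by rw [← hG]]
    rw [sum_inner]
    refine Finset.sum_congr rfl ?_
    intro i _
    have h1 : ⟪(c i * om i) • e i, M G⟫_ℝ = (c i * om i) * ⟪e i, M G⟫_ℝ := by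
      rw [Submodule.coe_inner, Submodule.coe_inner, Submodule.coe_smul, real_inner_smul_left]
    have h2 := hspec.rel i (M G)
    have h3 := (hspec.pos i).ne'
    rw [h1, h2]
    field_simp
  have hb_i : ∀ i : Fin N, ⟪b i, ι (M G)⟫_ℝ = ∫ y, b i y * ι G y * η y ^ 2 ∂(mu Ω) := by
    intro i
    rw [L2.inner_def]
    apply integral_congr_ae
    filter_upwards [hM1] with y hy
    rw [hy]
    simp only [RCLike.inner_apply, conj_trivial]
    ring
  have hG_in : ⟪G, M G⟫_ℝ = ∫ y, ⟪(G : Lp (En d) 2 (mu Ω)) y,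
      η y ^ 2 • (G : Lp (En d) 2 (mu Ω)) y + ι G y • gradient (fun y => η y ^ 2) y⟫_ℝ ∂(mu Ω) := by
    rw [Submodule.coe_inner, L2.inner_def]
    apply integral_congr_ae
    filter_upwards [hM2] with y hy
    rw [hy]
  have hI1 : Integrable (fun y => ⟪(G : Lp (En d) 2 (mu Ω)) y,
      η y ^ 2 • (G : Lp (En d) 2 (mu Ω)) y + ι G y • gradient (fun y => η y ^ 2) y⟫_ℝ) (mu Ω) := by
    have h := L2.integrable_inner (𝕜 := ℝ) (G : Lp (En d) 2 (mu Ω))
      ((M G : VV Ω) : Lp (En d) 2 (mu Ω))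
    refine h.congr ?_
    filter_upwards [hM2] with y hy
    rw [hy]
  have hI2 : Integrable (fun y => ι G y ^ 2 * ‖gradient η y‖ ^ 2) (mu Ω) := by
    have h1 : Integrable (fun y => ι G y ^ 2) (mu Ω) := by
      have h := L2.integrable_inner (𝕜 := ℝ) (ι G) (ι G)
      refine h.congr ?_
      filter_upwards with y
      simp only [RCLike.inner_apply, conj_trivial]
      ring
    have h2 : Continuous (fun y => ‖gradient η y‖ ^ 2) := (gradient_cont η hη).norm.pow 2
    refine h1.mul_bdd (c := C ^ 2) h2.aestronglyMeasurable ?_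
    filter_upwards with y
    rw [Real.norm_eq_abs, abs_pow, abs_norm]
    exact pow_le_pow_left₀ (norm_nonneg _) (hC y).2 2
  have hsum : ∫ y, ⟪(G : Lp (En d) 2 (mu Ω)) y,
      η y ^ 2 • (G : Lp (En d) 2 (mu Ω)) y + ι G y • gradient (fun y => η y ^ 2) y⟫_ℝ ∂(mu Ω) =
      ∑ i : Fin N, c i * om i ^ 2 * ∫ y, b i y * ι G y * η y ^ 2 ∂(mu Ω) := by
    rw [← hG_in, hin]
    refine Finset.sum_congr rfl ?_
    intro i _
    rw [hb_i]
  rw [← hsum, ← integral_add hI1 hI2]
  apply integral_congr_ae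
  filter_upwards with y
  rw [gradient_sq η hdiff, ← real_inner_self_eq_norm_sq, ← real_inner_self_eq_norm_sq]
  simp only [inner_add_left, inner_add_right, real_inner_smul_left, real_inner_smul_right]
  rw [real_inner_comm (gradient η y) _]
  ring

end

end Pool.Agent.BEH.H80
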